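import Mathlib

/-!
# Minimum covers of LCM-p-groups for odd p

For every odd prime `p` there are infinitely many finite sets of LCM-`p`-groups (members counted up
to isomorphism) all of whose minimum covers fail to be LCM-groups.
-/

set_option autoImplicit false

namespace Pool.Agent.Results.MP_8c719a_al.InfinitelyManyCovers

/-! ## Definitions used in the statement -/

/-- `LCM(G) = {x | o(x ^ n * y) ∣ lcm (o(x ^ n)) (o(y)) for all n and all y}`. -/
def lcmSet (G : Type) [Group G] : Set G :=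
  {x | ∀ (n : ℕ) (y : G), orderOf (x ^ n * y) ∣ Nat.lcm (orderOf (x ^ n)) (orderOf y)}

/-- `G` is an LCM-group if `LCM(G) = G`. -/
def IsLCMGroup (G : Type) [Group G] : Prop := lcmSet G = Set.univ

/-- Two finite groups are identified when there is a group isomorphism between them. -/
def isoSetoid : Setoid FiniteGrp.{0} where
  r G H := Nonempty (G ≃* H)
  iseqv :=
    { refl := fun G => ⟨MulEquiv.refl G⟩
      symm := fun ⟨e⟩ => ⟨e.symm⟩
      trans := fun ⟨e⟩ ⟨f⟩ => ⟨e.trans f⟩ }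

/-- Isomorphism classes of finite groups. -/
def IsoClass : Type 1 := Quotient isoSetoid

/-- The isomorphism class of a finite group. -/
def isoClass (G : FiniteGrp.{0}) : IsoClass := Quotient.mk isoSetoid G

/-- `G` is an `𝓕`-cover: for each (isomorphism class of) group `F` in `𝓕`, `G` contains a subgroup
isomorphic to `F`. -/
def IsCover (𝓕 : Set IsoClass) (G : FiniteGrp.{0}) : Prop :=
  ∀ F : FiniteGrp.{0}, isoClass F ∈ 𝓕 → ∃ H : Subgroup G, Nonempty (F ≃* H)

/-- A minimum `𝓕`-cover: an `𝓕`-cover of least order among all `𝓕`-covers. -/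
def IsMinimumCover (𝓕 : Set IsoClass) (G : FiniteGrp.{0}) : Prop :=
  IsCover 𝓕 G ∧ ∀ G' : FiniteGrp.{0}, IsCover 𝓕 G' → Nat.card G ≤ Nat.card G'

/-! ## The regular wreath product of cyclic groups, with explicit multiplication -/

/-- Elements of the wreath product of `ZMod n` by `ZMod p`. -/
@[ext]
structure Wr (p n : ℕ) : Type where
  /-- the component in the acting group -/
  s : ZMod p
  /-- the component in the base group -/
  f : ZMod p → ZMod n

namespace Wr

variable {p n : ℕ}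

instance : Mul (Wr p n) := ⟨fun x y => ⟨x.s + y.s, fun i => x.f i + y.f (i + x.s)⟩⟩
instance : One (Wr p n) := ⟨⟨0, fun _ => 0⟩⟩
instance : Inv (Wr p n) := ⟨fun x => ⟨-x.s, fun i => -x.f (i - x.s)⟩⟩

@[simp] lemma mul_s (x y : Wr p n) : (x * y).s = x.s + y.s := rfl
@[simp] lemma mul_f (x y : Wr p n) (i : ZMod p) : (x * y).f i = x.f i + y.f (i + x.s) := rfl
@[simp] lemma one_s : (1 : Wr p n).s = 0 := rfl
@[simp] lemma one_f (i : ZMod p) : (1 : Wr p n).f i = 0 := rfl
@[simp] lemma inv_s (x : Wr p n) : (x⁻¹).s = -x.s := rfl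
@[simp] lemma inv_f (x : Wr p n) (i : ZMod p) : (x⁻¹).f i = -x.f (i - x.s) := rfl

instance : Group (Wr p n) :=
  Group.ofLeftAxioms
    (by
      intro x y z
      ext i
      · simp [add_assoc]
      · simp [add_assoc])
    (by
      intro x
      ext i
      · simp
      · simp)
    (by
      intro x
      ext i
      · simp
      · simp [sub_eq_add_neg])

/-- The underlying pair. -/
def toPair (x : Wr p n) : ZMod p × (ZMod p → ZMod n) := (x.s, x.f)

lemma toPair_injective : Function.Injective (toPair : Wr p n → _) := by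
  intro x y h
  have h1 : x.s = y.s := congrArg Prod.fst h
  have h2 : x.f = y.f := congrArg Prod.snd h
  cases x; cases y
  simp_all

instance [NeZero p] [NeZero n] : Finite (Wr p n) :=
  Finite.of_injective _ toPair_injective

lemma pow_s (x : Wr p n) (m : ℕ) : (x ^ m).s = m * x.s := by
  induction m with
  | zero => simp
  | succ m ih => rw [pow_succ, mul_s, ih]; push_cast; ring

lemma pow_f (x : Wr p n) (m : ℕ) (i : ZMod p) :
    (x ^ m).f i = ∑ j ∈ Finset.range m, x.f (i + j * x.s) := by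
  induction m with
  | zero => simp
  | succ m ih => rw [pow_succ, mul_f, ih, Finset.sum_range_succ, pow_s]

variable [NeZero p]

/-- The elements whose base component sums to zero. -/
def W (p n : ℕ) [NeZero p] : Subgroup (Wr p n) where
  carrier := {x | ∑ i, x.f i = 0}
  one_mem' := by simp
  mul_mem' := by
    intro x y hx hy
    simp only [Set.mem_ofPred_eq, mul_f] at *
    rw [Finset.sum_add_distrib, hx, zero_add]
    rw [← hy]
    exact Fintype.sum_equiv (Equiv.addRight x.s) _ _ (fun i => rfl)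
  inv_mem' := by
    intro x hx
    simp only [Set.mem_ofPred_eq, inv_f] at *
    rw [Finset.sum_neg_distrib, neg_eq_zero, ← hx]
    exact Fintype.sum_equiv (Equiv.subRight x.s) _ _ (fun i => rfl)

lemma mem_W {x : Wr p n} : x ∈ W p n ↔ ∑ i, x.f i = 0 := Iff.rfl

/-- The elements of `W` whose acting component is zero. -/
def M (p n : ℕ) [NeZero p] : Subgroup (Wr p n) where
  carrier := {x | x.s = 0 ∧ ∑ i, x.f i = 0}
  one_mem' := by simp
  mul_mem' := by
    intro x y hx hy
    exact ⟨by simp [hx.1, hy.1], (W p n).mul_mem hx.2 hy.2⟩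
  inv_mem' := by
    intro x hx
    exact ⟨by simp [hx.1], (W p n).inv_mem hx.2⟩

lemma mem_M {x : Wr p n} : x ∈ M p n ↔ x.s = 0 ∧ ∑ i, x.f i = 0 := Iff.rfl

lemma M_le_W : M p n ≤ W p n := fun _ hx => hx.2

lemma M_comm (x y : Wr p n) (hx : x ∈ M p n) (hy : y ∈ M p n) : x * y = y * x := by
  ext i
  · simp [hx.1, hy.1]
  · simp [hx.1, hy.1, add_comm]

/-- The element `δ_0 - δ_1` of the base. -/
def delta (p n : ℕ) [NeZero p] : Wr p n :=
  ⟨0, fun i => (if i = 0 then 1 else 0) - (if i = 1 then 1 else 0)⟩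

lemma delta_mem (p n : ℕ) [NeZero p] : delta p n ∈ M p n := by
  refine ⟨rfl, ?_⟩
  simp [delta, Finset.sum_sub_distrib]

/-- The generator of the acting group. -/
def gen (p n : ℕ) : Wr p n := ⟨1, fun _ => 0⟩

lemma gen_mem (p n : ℕ) [NeZero p] : gen p n ∈ W p n := by
  simp [mem_W, gen]


/-- the map `ZMod p → ZMod n` multiplying by `q` where `n = q * p` (here as an additive hom). -/
def iota (p q : ℕ) : ZMod p →+ ZMod (q * p) :=
  ZMod.lift p ⟨(AddMonoidHom.mulLeft (q : ZMod (q * p))).comp (Int.castAddHom (ZMod (q * p))), by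
    simp only [AddMonoidHom.coe_comp, Function.comp_apply, Int.coe_castAddHom, Int.cast_natCast,
      AddMonoidHom.coe_mulLeft]
    exact_mod_cast (ZMod.natCast_self (q * p))⟩

lemma iota_injective (p q : ℕ) (hq : 0 < q) : Function.Injective (iota p q) := by
  rw [iota, ZMod.lift_injective]
  intro m hm
  simp only [AddMonoidHom.coe_comp, Function.comp_apply, Int.coe_castAddHom,
    AddMonoidHom.coe_mulLeft] at hm
  have h1 : (((q : ℤ) * m : ℤ) : ZMod (q * p)) = 0 := by push_cast; exact hm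
  rw [ZMod.intCast_zmod_eq_zero_iff_dvd] at h1
  push_cast at h1
  rw [ZMod.intCast_zmod_eq_zero_iff_dvd]
  exact Int.dvd_of_mul_dvd_mul_left (by exact_mod_cast hq.ne') h1

/-- The induced map of wreath products. -/
def wrMap (p q : ℕ) : Wr p p →* Wr p (q * p) where
  toFun x := ⟨x.s, fun i => iota p q (x.f i)⟩
  map_one' := by ext i <;> simp
  map_mul' := by
    intro x y
    ext i <;> simp

lemma wrMap_injective (p q : ℕ) (hq : 0 < q) : Function.Injective (wrMap p q) := by
  intro x y h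
  have h1 : x.s = y.s := congrArg (fun z : Wr p (q * p) => z.s) h
  have h2 : ∀ i, iota p q (x.f i) = iota p q (y.f i) :=
    fun i => congrArg (fun z : Wr p (q * p) => z.f i) h
  ext i
  · exact h1
  · exact iota_injective p q hq (h2 i)

lemma wrMap_mem (p q : ℕ) [NeZero p] (x : Wr p p) (hx : x ∈ W p p) : wrMap p q x ∈ W p (q * p) := by
  rw [mem_W] at *
  simp only [wrMap, MonoidHom.coe_mk, OneHom.coe_mk]
  rw [← map_sum, hx, map_zero]

/-- `W p p` has exponent `p`. -/
lemma W_pow_p (p : ℕ) [Fact p.Prime] (x : Wr p p) (hx : x ∈ W p p) : x ^ p = 1 := by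
  ext i
  · rw [pow_s]; simp
  · rw [pow_f, one_f]
    by_cases hs : x.s = 0
    · simp [hs]
    · rw [mem_W] at hx
      rw [← hx]
      have hinj : Function.Bijective (fun j : ZMod p => i + j * x.s) := by
        refine ⟨fun a b hab => ?_, fun c => ⟨(c - i) * (x.s)⁻¹, ?_⟩⟩
        · have : a * x.s = b * x.s := add_left_cancel hab
          exact mul_right_cancel₀ hs this
        · show i + (c - i) * (x.s)⁻¹ * x.s = c
          rw [mul_assoc, inv_mul_cancel₀ hs]; ring
      rw [← Function.Bijective.sum_comp hinj]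
      refine Finset.sum_bij (fun j _ => (j : ZMod p)) ?_ ?_ ?_ ?_
      · intro a _; exact Finset.mem_univ _
      · intro a ha b hb hab
        rw [Finset.mem_range] at ha hb
        have := (ZMod.natCast_eq_natCast_iff' a b p).1 hab
        rwa [Nat.mod_eq_of_lt ha, Nat.mod_eq_of_lt hb] at this
      · intro b _
        exact ⟨b.val, Finset.mem_range.2 (ZMod.val_lt b), ZMod.natCast_zmod_val b⟩
      · intro a _; rfl

/-- `W p n` is not commutative when `p ≥ 3` and `n ≥ 3`. -/
lemma W_noncomm (p n : ℕ) [NeZero p] (hp : 3 ≤ p) (hn : 3 ≤ n) :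
    gen p n * delta p n ≠ delta p n * gen p n := by
  intro h
  have h0 := congrFun (congrArg Wr.f h) 0
  simp only [mul_f, gen, delta] at h0
  have : Fact (1 < p) := ⟨by omega⟩
  have e1 : (0 : ZMod p) + 1 ≠ 0 := by simp
  have e2 : (0 : ZMod p) ≠ 1 := by simp
  simp only [zero_add, one_ne_zero, if_false, if_true, e2] at h0
  have : Fact (2 < n) := ⟨by omega⟩
  have h2 : (2 : ZMod n) = 0 := by linear_combination -h0
  have h3 : ((2 : ℕ) : ZMod n) = 0 := by exact_mod_cast h2
  rw [ZMod.natCast_eq_zero_iff] at h3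
  have := Nat.le_of_dvd (by norm_num) h3
  omega

/-- In `M p (q * p)` every element killed by `p` is a `q`-th power. -/
lemma M_div (p q : ℕ) [NeZero p] (hq : 0 < q) (b : Wr p (q * p)) (hb : b ∈ M p (q * p))
    (hbp : b ^ p = 1) : ∃ a ∈ M p (q * p), a ^ q = b := by
  obtain ⟨hs, hsum⟩ := hb
  have key : ∀ i, ∃ c : ZMod (q * p), (q : ZMod (q * p)) * c = b.f i := by
    intro i
    have h1 : (p : ZMod (q * p)) * b.f i = 0 := by
      have := congrArg (fun z : Wr p (q * p) => z.f i) hbp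
      simpa [pow_f, hs] using this
    have hp : 0 < p := Nat.pos_of_ne_zero (NeZero.ne p)
    have : NeZero (q * p) := ⟨(Nat.mul_pos hq hp).ne'⟩
    have h2 : ((p * (b.f i).val : ℕ) : ZMod (q * p)) = 0 := by
      push_cast; rw [ZMod.natCast_zmod_val]; exact h1
    rw [ZMod.natCast_eq_zero_iff] at h2
    obtain ⟨c, hc⟩ := Nat.dvd_of_mul_dvd_mul_left hp ((dvd_of_eq (mul_comm p q)).trans h2)
    refine ⟨(c : ZMod (q * p)), ?_⟩
    rw [← Nat.cast_mul, ← hc, ZMod.natCast_zmod_val]
  choose c hc using key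
  have hqs : (q : ZMod (q * p)) * ∑ i, c i = 0 := by
    rw [Finset.mul_sum]; simp only [hc]; exact hsum
  refine ⟨⟨0, fun i => c i - (if i = 0 then ∑ j, c j else 0)⟩, ⟨rfl, ?_⟩, ?_⟩
  · simp [Finset.sum_sub_distrib]
  · ext i
    · simp [pow_s, hs]
    · rw [pow_f]
      simp only [mul_zero, add_zero, Finset.sum_const, Finset.card_range, nsmul_eq_mul]
      rw [mul_sub, hc]
      split_ifs with h
      · rw [hqs, sub_zero]
      · simp

lemma M_pow (p n : ℕ) [NeZero p] (x : Wr p n) (hx : x ∈ M p n) : x ^ n = 1 := by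
  ext i
  · simp [pow_s, hx.1]
  · simp [pow_f, hx.1]

lemma delta_pow (p n j : ℕ) [NeZero p] (hp : 3 ≤ p) (h : delta p n ^ j = 1) : n ∣ j := by
  have h0 := congrArg (fun z : Wr p n => z.f 0) h
  have : Fact (1 < p) := ⟨by omega⟩
  have e2 : (0 : ZMod p) ≠ 1 := by simp
  simp only [pow_f] at h0
  simp [delta] at h0
  rwa [ZMod.natCast_eq_zero_iff] at h0

/-- `|W| = p * |M|`. -/
lemma card_W (p n : ℕ) [NeZero p] : Nat.card (W p n) = p * Nat.card (M p n) := by
  have e : W p n ≃ ZMod p × M p n :=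
    { toFun := fun x => (x.1.s, ⟨⟨0, x.1.f⟩, rfl, x.2⟩)
      invFun := fun y => ⟨⟨y.1, y.2.1.f⟩, y.2.2.2⟩
      left_inv := fun x => rfl
      right_inv := by
        rintro ⟨a, ⟨⟨b, f⟩, hb, hf⟩⟩
        simp only at hb
        subst hb
        rfl }
  rw [Nat.card_congr e, Nat.card_prod, Nat.card_zmod]

end Wr

/-! ## The obstruction to being an LCM-group -/

/-- If `A` is an abelian normal subgroup with cyclic quotient in which each element killed by `p` is
a `q`-th power, `p ∣ q`, and `F` is a noncommutative subgroup of exponent `p`, then the group is not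
an LCM-group. -/
lemma not_isLCMGroup {G : Type} [Group G] (p q : ℕ) (hpq : p ∣ q) (A F : Subgroup G)
    [A.Normal] (hcyc : IsCyclic (G ⧸ A)) (hA : ∀ a ∈ A, ∀ b ∈ A, a * b = b * a)
    (hdiv : ∀ b ∈ A, b ^ p = 1 → ∃ a ∈ A, a ^ q = b) (hF : ∀ x ∈ F, x ^ p = 1)
    (hnc : ¬ ∀ x ∈ F, ∀ y ∈ F, x * y = y * x) : ¬ IsLCMGroup G := by
  intro hL
  apply hnc
  have hcent : ∀ y ∈ F, ∀ b ∈ F, b ∈ A → y * b = b * y := by
    intro y hy b hbF hbA
    obtain ⟨a, haA, hab⟩ := hdiv b hbA (hF b hbF)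
    have hy' : y ∈ lcmSet G := by rw [hL]; trivial
    have h1 := hy' 1 (a * y⁻¹ * a⁻¹)
    rw [pow_one] at h1
    have h2 : orderOf y ∣ p := orderOf_dvd_of_pow_eq_one (hF y hy)
    have h3 : orderOf (a * y⁻¹ * a⁻¹) ∣ p := by
      apply orderOf_dvd_of_pow_eq_one
      have : (a * y⁻¹ * a⁻¹) = MulAut.conj a y⁻¹ := by simp
      rw [this, ← map_pow, inv_pow, hF y hy]; simp
    have h4 : (y * (a * y⁻¹ * a⁻¹)) ^ p = 1 :=
      orderOf_dvd_iff_pow_eq_one.1 (h1.trans (Nat.lcm_dvd h2 h3))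
    have h5 : y * (a * y⁻¹ * a⁻¹) = (y * a * y⁻¹) * a⁻¹ := by group
    have hyA : y * a * y⁻¹ ∈ A := Subgroup.Normal.conj_mem inferInstance a haA y
    have hcomm : Commute (y * a * y⁻¹) a⁻¹ := hA _ hyA _ (A.inv_mem haA)
    have h6 : (y * (a * y⁻¹ * a⁻¹)) ^ q = 1 := by
      obtain ⟨r, hr⟩ := hpq
      rw [hr, pow_mul, h4, one_pow]
    rw [h5, hcomm.mul_pow, inv_pow, hab] at h6
    have h7 : (y * a * y⁻¹) ^ q = y * b * y⁻¹ := by
      have : y * a * y⁻¹ = MulAut.conj y a := by simp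
      rw [this, ← map_pow, hab]; simp
    rw [h7] at h6
    calc y * b = (y * b * y⁻¹ * b⁻¹) * (b * y) := by group
      _ = b * y := by rw [h6, one_mul]
  have hker : ((QuotientGroup.mk' A).comp F.subtype).ker ≤ Subgroup.center F := by
    intro x hx
    rw [MonoidHom.mem_ker] at hx
    have hxA : (x : G) ∈ A := by
      simpa using hx
    rw [Subgroup.mem_center_iff]
    intro y
    apply Subtype.ext
    exact hcent y.1 y.2 x.1 x.2 hxA
  intro x hx y hy
  have hcommF := MonoidHom.isMulCommutative_of_isCyclic_of_ker_le_center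
    ((QuotientGroup.mk' A).comp F.subtype) hker
  have := hcommF.is_comm.comm (⟨x, hx⟩ : F) ⟨y, hy⟩
  exact congrArg Subtype.val this

/-! ## The families -/

section families

variable (p : ℕ) [hp : Fact p.Prime]

/-- The group of order `p ^ p` and exponent `p`. -/
def grpF : FiniteGrp.{0} := FiniteGrp.of (Wr.W p p)

/-- The homocyclic group of rank `p - 1` and exponent `p ^ k * p`. -/
def grpM (k : ℕ) : FiniteGrp.{0} :=
  haveI : NeZero (p ^ k * p) := ⟨(Nat.mul_pos (Nat.pow_pos hp.out.pos) hp.out.pos).ne'⟩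
  FiniteGrp.of (Wr.M p (p ^ k * p))

/-- The semidirect product of `grpM` with the cyclic group of order `p`. -/
def grpG (k : ℕ) : FiniteGrp.{0} :=
  haveI : NeZero (p ^ k * p) := ⟨(Nat.mul_pos (Nat.pow_pos hp.out.pos) hp.out.pos).ne'⟩
  FiniteGrp.of (Wr.W p (p ^ k * p))

/-- The family `{F, M_k}`. -/
def fam (k : ℕ) : Set IsoClass := {isoClass (grpF p), isoClass (grpM p k)}

lemma isoClass_eq_iff (G H : FiniteGrp.{0}) : isoClass G = isoClass H ↔ Nonempty (G ≃* H) :=
  Quotient.eq (r := isoSetoid)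

/-- Membership in the family. -/
lemma mem_fam_iff (k : ℕ) (F : FiniteGrp.{0}) :
    isoClass F ∈ fam p k ↔ Nonempty (F ≃* grpF p) ∨ Nonempty (F ≃* grpM p k) := by
  rw [fam, Set.mem_insert_iff, Set.mem_singleton_iff, isoClass_eq_iff, isoClass_eq_iff]

lemma isLCMGroup_of_pow_p (G : Type) [Group G] (h : ∀ x : G, x ^ p = 1) : IsLCMGroup G := by
  rw [IsLCMGroup, Set.eq_univ_iff_forall]
  intro x n y
  by_cases hx : x ^ n = 1
  · rw [hx, one_mul]; exact Nat.dvd_lcm_right _ _
  · have h1 : orderOf (x ^ n) = p := orderOf_eq_prime (h _) hx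
    rw [h1]
    exact (orderOf_dvd_of_pow_eq_one (h _)).trans (Nat.dvd_lcm_left _ _)

lemma isLCMGroup_of_comm (G : Type) [Group G] (h : ∀ x y : G, x * y = y * x) : IsLCMGroup G := by
  rw [IsLCMGroup, Set.eq_univ_iff_forall]
  intro x n y
  exact (show Commute (x ^ n) y from h _ _).orderOf_mul_dvd_lcm

lemma grpF_pow (x : grpF p) : x ^ p = 1 := by
  apply Subtype.ext
  exact Wr.W_pow_p p x.1 x.2

lemma grpM_comm (k : ℕ) (x y : grpM p k) : x * y = y * x := by
  apply Subtype.ext
  exact Wr.M_comm x.1 y.1 x.2 y.2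

lemma grpM_pow (k : ℕ) (x : grpM p k) : x ^ (p ^ k * p) = 1 := by
  apply Subtype.ext
  exact Wr.M_pow p (p ^ k * p) x.1 x.2

lemma grpF_isPGroup : IsPGroup p (grpF p) := fun g => ⟨1, by rw [pow_one]; exact grpF_pow p g⟩

lemma grpM_isPGroup (k : ℕ) : IsPGroup p (grpM p k) :=
  fun g => ⟨k + 1, by rw [pow_succ]; exact grpM_pow p k g⟩

lemma isLCMGroup_congr {G H : Type} [Group G] [Group H] (e : G ≃* H) (h : IsLCMGroup H) :
    IsLCMGroup G := by
  rw [IsLCMGroup, Set.eq_univ_iff_forall] at *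
  intro x n y
  have := h (e x) n (e y)
  rwa [← map_pow, ← map_mul, MulEquiv.orderOf_eq, MulEquiv.orderOf_eq, MulEquiv.orderOf_eq] at this

lemma fam_lcm (k : ℕ) (F : FiniteGrp.{0}) (hF : isoClass F ∈ fam p k) :
    IsPGroup p F ∧ IsLCMGroup F := by
  rw [mem_fam_iff] at hF
  rcases hF with ⟨⟨e⟩⟩ | ⟨⟨e⟩⟩
  · exact ⟨(grpF_isPGroup p).of_equiv e.symm, isLCMGroup_congr e
      (isLCMGroup_of_pow_p p _ (grpF_pow p))⟩
  · exact ⟨(grpM_isPGroup p k).of_equiv e.symm, isLCMGroup_congr e
      (isLCMGroup_of_comm _ (grpM_comm p k))⟩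

lemma exists_subgroup_of_injective {F G : Type} [Group F] [Group G] (f : F →* G)
    (hf : Function.Injective f) : ∃ H : Subgroup G, Nonempty (F ≃* H) :=
  ⟨f.range, ⟨f.ofInjective hf⟩⟩

lemma exists_subgroup_congr {F F' G : Type} [Group F] [Group F'] [Group G] (e : F ≃* F')
    (h : ∃ H : Subgroup G, Nonempty (F' ≃* H)) : ∃ H : Subgroup G, Nonempty (F ≃* H) := by
  obtain ⟨H, ⟨f⟩⟩ := h
  exact ⟨H, ⟨e.trans f⟩⟩

lemma isCover_grpG (k : ℕ) : IsCover (fam p k) (grpG p k) := by
  intro F hF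
  rw [mem_fam_iff] at hF
  rcases hF with ⟨⟨e⟩⟩ | ⟨⟨e⟩⟩
  · apply exists_subgroup_congr e
    refine exists_subgroup_of_injective
      (((Wr.wrMap p (p ^ k)).comp (Wr.W p p).subtype).codRestrict (Wr.W p (p ^ k * p))
        (fun x => Wr.wrMap_mem p (p ^ k) x.1 x.2)) ?_
    intro x y h
    apply Subtype.ext
    exact Wr.wrMap_injective p (p ^ k) (Nat.pow_pos hp.out.pos) (congrArg Subtype.val h)
  · apply exists_subgroup_congr e
    exact exists_subgroup_of_injective (Subgroup.inclusion Wr.M_le_W)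
      (Subgroup.inclusion_injective Wr.M_le_W)

lemma card_grpG (k : ℕ) : Nat.card (grpG p k) = p * Nat.card (grpM p k) :=
  Wr.card_W p (p ^ k * p)

lemma fam_injective (hp3 : 3 ≤ p) : Function.Injective (fam p) := by
  have hF : ∀ k, ¬ Nonempty (grpM p k ≃* grpF p) := by
    rintro k ⟨e⟩
    have h1 : (⟨Wr.gen p p, Wr.gen_mem p p⟩ : Wr.W p p) * ⟨Wr.delta p p, Wr.M_le_W (Wr.delta_mem p p)⟩
        = ⟨Wr.delta p p, Wr.M_le_W (Wr.delta_mem p p)⟩ * ⟨Wr.gen p p, Wr.gen_mem p p⟩ := by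
      have : ∀ x y : grpF p, x * y = y * x := by
        intro x y
        apply e.symm.injective
        rw [map_mul, map_mul, grpM_comm]
      exact this _ _
    exact Wr.W_noncomm p p hp3 hp3 (congrArg Subtype.val h1)
  have hle : ∀ k l, fam p k = fam p l → k ≤ l := by
    intro k l h
    have h1 : isoClass (grpM p k) ∈ fam p l := by
      rw [← h, mem_fam_iff]; exact Or.inr ⟨MulEquiv.refl _⟩
    rw [mem_fam_iff] at h1
    rcases h1 with h1 | ⟨⟨e⟩⟩
    · exact absurd h1 (hF k)
    · have h2 : (⟨Wr.delta p (p ^ k * p), Wr.delta_mem p _⟩ : Wr.M p (p ^ k * p)) ^ (p ^ l * p) = 1 := by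
        have : ∀ x : grpM p k, x ^ (p ^ l * p) = 1 := by
          intro x
          apply e.injective
          rw [map_pow, grpM_pow, map_one]
        exact this _
      have h3 := Wr.delta_pow p (p ^ k * p) (p ^ l * p) hp3 (congrArg Subtype.val h2)
      rw [← pow_succ, ← pow_succ, Nat.pow_dvd_pow_iff_le_right hp.out.one_lt] at h3
      omega
  intro k l h
  exact le_antisymm (hle k l h) (hle l k h.symm)

lemma exists_minimumCover (𝓕 : Set IsoClass) (G : FiniteGrp.{0}) (hG : IsCover 𝓕 G) :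
    ∃ G', IsMinimumCover 𝓕 G' := by
  classical
  have hex : ∃ n, ∃ G' : FiniteGrp.{0}, IsCover 𝓕 G' ∧ Nat.card G' = n := ⟨_, G, hG, rfl⟩
  obtain ⟨G', hG', hcard⟩ := Nat.find_spec hex
  refine ⟨G', hG', fun G'' hG'' => ?_⟩
  rw [hcard]
  exact Nat.find_min' hex ⟨G'', hG'', rfl⟩

lemma grpF_noncomm (hp3 : 3 ≤ p) : ¬ ∀ x y : grpF p, x * y = y * x := by
  intro h
  have h1 : (⟨Wr.gen p p, Wr.gen_mem p p⟩ : Wr.W p p) *
      ⟨Wr.delta p p, Wr.M_le_W (Wr.delta_mem p p)⟩
      = ⟨Wr.delta p p, Wr.M_le_W (Wr.delta_mem p p)⟩ * ⟨Wr.gen p p, Wr.gen_mem p p⟩ := h _ _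
  exact Wr.W_noncomm p p hp3 hp3 (congrArg Subtype.val h1)

lemma grpM_div (k : ℕ) (b : grpM p k) (hb : b ^ p = 1) : ∃ a : grpM p k, a ^ (p ^ k) = b := by
  obtain ⟨a, ha, hab⟩ := Wr.M_div p (p ^ k) (Nat.pow_pos hp.out.pos) b.1 b.2
    (congrArg Subtype.val hb)
  exact ⟨⟨a, ha⟩, Subtype.ext hab⟩

lemma not_lcm_of_minimumCover (hp3 : 3 ≤ p) (k : ℕ) (hk : 1 ≤ k) (G : FiniteGrp.{0})
    (hG : IsMinimumCover (fam p k) G) : ¬ IsLCMGroup G := by
  obtain ⟨hcov, hmin⟩ := hG
  obtain ⟨A, ⟨eA⟩⟩ := hcov (grpM p k) ((mem_fam_iff p k _).2 (Or.inr ⟨MulEquiv.refl _⟩))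
  obtain ⟨F, ⟨eF⟩⟩ := hcov (grpF p) ((mem_fam_iff p k _).2 (Or.inl ⟨MulEquiv.refl _⟩))
  have hpp := hp.out
  have hA : ∀ a ∈ A, ∀ b ∈ A, a * b = b * a := by
    intro a ha b hb
    have : (⟨a, ha⟩ : A) * ⟨b, hb⟩ = ⟨b, hb⟩ * ⟨a, ha⟩ := by
      apply eA.symm.injective
      rw [map_mul, map_mul, grpM_comm]
    exact congrArg Subtype.val this
  have hF : ∀ x ∈ F, x ^ p = 1 := by
    intro x hx
    have : (⟨x, hx⟩ : F) ^ p = 1 := by
      apply eF.symm.injective
      rw [map_pow, grpF_pow, map_one]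
    exact congrArg Subtype.val this
  have hnc : ¬ ∀ x ∈ F, ∀ y ∈ F, x * y = y * x := by
    intro h
    apply grpF_noncomm p hp3
    intro x y
    apply eF.injective
    rw [map_mul, map_mul]
    apply Subtype.ext
    exact h _ (eF x).2 _ (eF y).2
  have hdiv : ∀ b ∈ A, b ^ p = 1 → ∃ a ∈ A, a ^ (p ^ k) = b := by
    intro b hb hbp
    obtain ⟨a, hab⟩ := grpM_div p k (eA.symm ⟨b, hb⟩) (by
      rw [← map_pow, ← map_one eA.symm]
      congr 1
      exact Subtype.ext hbp)
    refine ⟨(eA a).1, (eA a).2, ?_⟩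
    have h3 : (eA a) ^ (p ^ k) = ⟨b, hb⟩ := by
      rw [← map_pow, hab, MulEquiv.apply_symm_apply]
    exact congrArg Subtype.val h3
  -- index computations
  have hcardA : Nat.card A = Nat.card (grpM p k) := Nat.card_congr eA.symm.toEquiv
  have hposA : 0 < Nat.card A := Nat.card_pos
  have hidx : A.index ≤ p := by
    have h1 := hmin _ (isCover_grpG p k)
    rw [card_grpG, ← hcardA, ← A.index_mul_card] at h1
    exact Nat.le_of_mul_le_mul_right h1 hposA
  have hpF : IsPGroup p F := (grpF_isPGroup p).of_equiv eF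
  have hpA : IsPGroup p A := (grpM_isPGroup p k).of_equiv eA
  obtain ⟨m, hm⟩ := IsPGroup.iff_card.1 hpF
  obtain ⟨a, haA⟩ := IsPGroup.iff_card.1 hpA
  have hrel : A.relIndex F = p := by
    have h1 : A.relIndex F ∣ p ^ m := hm ▸ A.relIndex_dvd_card F
    obtain ⟨j, -, hj⟩ := (Nat.dvd_prime_pow hpp).1 h1
    have h2 : A.relIndex F ≤ A.index := by
      have := Subgroup.relIndex_le_of_le_right (H := A) (le_top : F ≤ ⊤)
        (by rw [Subgroup.relIndex_top_right]; exact Subgroup.index_ne_zero_of_finite)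
      rwa [Subgroup.relIndex_top_right] at this
    have h3 : A.relIndex F ≠ 1 := by
      rw [Ne, Subgroup.relIndex_eq_one]
      intro hle
      exact hnc (fun x hx y hy => hA x (hle hx) y (hle hy))
    have h4 : j ≠ 0 := by
      rintro rfl
      exact h3 (by rw [hj, pow_zero])
    have h5 : p ^ j ≤ p ^ 1 := by rw [← hj, pow_one]; exact h2.trans hidx
    have h6 : j ≤ 1 := (Nat.pow_le_pow_iff_right hpp.one_lt).1 h5
    have h7 : j = 1 := by omega
    rw [hj, h7, pow_one]
  have hindex : A.index = p := by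
    apply le_antisymm hidx
    rw [← hrel]
    have := Subgroup.relIndex_le_of_le_right (H := A) (le_top : F ≤ ⊤)
      (by rw [Subgroup.relIndex_top_right]; exact Subgroup.index_ne_zero_of_finite)
    rwa [Subgroup.relIndex_top_right] at this
  have hcardG : Nat.card G = p ^ (a + 1) := by
    rw [← A.index_mul_card, hindex, haA, pow_succ, mul_comm]
  have hnormal : A.Normal := by
    apply Subgroup.normal_of_index_eq_minFac_card
    rw [hindex, hcardG, Nat.Prime.pow_minFac hpp (by omega)]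
  have hcyc : IsCyclic (G ⧸ A) := by
    have : Nat.card (G ⧸ A) = p := hindex
    exact isCyclic_of_prime_card this
  exact not_isLCMGroup p (p ^ k) (dvd_pow_self p (by omega)) A F hcyc hA hdiv hF hnc

end families

/-- **Main result.**  For every odd prime `p` there are infinitely many finite sets `𝓕` of
LCM-`p`-groups (members taken up to isomorphism) such that `𝓕` has minimum covers and every minimum
`𝓕`-cover fails to be an LCM-group. -/
theorem result (p : ℕ) (hp : p.Prime) (hodd : Odd p) :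
    {𝓕 : Set IsoClass | 𝓕.Finite ∧
      (∀ F : FiniteGrp.{0}, isoClass F ∈ 𝓕 → IsPGroup p F ∧ IsLCMGroup F) ∧
      (∃ G : FiniteGrp.{0}, IsMinimumCover 𝓕 G) ∧
      ∀ G : FiniteGrp.{0}, IsMinimumCover 𝓕 G → ¬ IsLCMGroup G}.Infinite := by
  have : Fact p.Prime := ⟨hp⟩
  have hp3 : 3 ≤ p := by
    have h2 := hp.two_le
    rcases hodd with ⟨m, hm⟩
    omega
  have hinj : Function.Injective (fun k : ℕ => fam p (k + 1)) := by
    intro k l h
    have := fam_injective p hp3 h
    omega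
  refine Set.infinite_of_injective_forall_mem hinj (fun k => ?_)
  refine ⟨?_, fam_lcm p (k + 1), exists_minimumCover _ _ (isCover_grpG p (k + 1)),
    fun G hG => not_lcm_of_minimumCover p hp3 (k + 1) (by omega) G hG⟩
  exact (Set.finite_singleton _).insert _

end Pool.Agent.Results.MP_8c719a_al.InfinitelyManyCovers
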